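import Pool.Agent.Q330.PHI.Half

/-!
# Reductions whose outputs are computed by formulas
-/

set_option autoImplicit false

namespace Pool.Agent.Q330.FRD

open Finset Pool.Agent.Q330.PHI
open scoped Classical

variable {X : Type} [Fintype X]

theorem prs_swap (D : Finset X) (A B : Finset (Finset X)) :
    (prs D A B).card = (prs D B A).card := by
  refine card_bij' (fun q _ => (q.2, q.1)) (fun q _ => (q.2, q.1)) ?_ ?_ ?_ ?_
  · rintro ⟨a, b⟩ hq
    unfold prs at hq ⊢
    rw [mem_filter, mem_product] at hq ⊢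
    obtain ⟨⟨ha, hb⟩, z, hz, h⟩ := hq
    refine ⟨⟨hb, ha⟩, z, hz, ?_⟩
    simp only at h ⊢
    rw [h, PHI.flip_flip]
  · rintro ⟨a, b⟩ hq
    unfold prs at hq ⊢
    rw [mem_filter, mem_product] at hq ⊢
    obtain ⟨⟨ha, hb⟩, z, hz, h⟩ := hq
    refine ⟨⟨hb, ha⟩, z, hz, ?_⟩
    simp only at h ⊢
    rw [h, PHI.flip_flip]
  · rintro ⟨a, b⟩ hq
    rfl
  · rintro ⟨a, b⟩ hq
    rfl

theorem two_sqrt (a0 a1 b0 b1 : ℝ) (h1 : 0 ≤ a0) (h2 : 0 ≤ a1) (h3 : 0 ≤ b0) (h4 : 0 ≤ b1) :
    Real.sqrt (a1 * b0) + Real.sqrt (b1 * a0) ≤ Real.sqrt ((a1 + a0) * (b1 + b0)) := by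
  refine Real.le_sqrt_of_sq_le ?_
  have e1 := Real.sq_sqrt (mul_nonneg h2 h3)
  have e2 := Real.sq_sqrt (mul_nonneg h4 h1)
  have e3 : Real.sqrt (a1 * b0) * Real.sqrt (b1 * a0) =
      Real.sqrt (a1 * b1) * Real.sqrt (a0 * b0) := by
    rw [← Real.sqrt_mul (mul_nonneg h2 h3), ← Real.sqrt_mul (mul_nonneg h2 h4)]
    congr 1
    ring
  have e4 := Real.sq_sqrt (mul_nonneg h2 h4)
  have e5 := Real.sq_sqrt (mul_nonneg h1 h3)
  nlinarith [sq_nonneg (Real.sqrt (a1 * b1) - Real.sqrt (a0 * b0))]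

/-- The number of the pairs which are separated by a formula. -/
theorem separated (D : Finset X) (φ : Fml X) (A B : Finset (Finset X)) :
    (((prs D A B).filter fun q => ¬ (φ.Val q.1 ↔ φ.Val q.2)).card : ℝ) ≤
      Real.sqrt (A.card * B.card) * Real.sqrt (φ.cost D) := by
  have h1 := khrap D φ (A.filter fun a => φ.Val a) (B.filter fun b => ¬ φ.Val b)
    (fun a ha => (mem_filter.1 ha).2) (fun b hb => (mem_filter.1 hb).2)
  have h2 := khrap D φ (B.filter fun a => φ.Val a) (A.filter fun b => ¬ φ.Val b)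
    (fun a ha => (mem_filter.1 ha).2) (fun b hb => (mem_filter.1 hb).2)
  rw [prs_swap] at h2
  have h3 : ((prs D A B).filter fun q => ¬ (φ.Val q.1 ↔ φ.Val q.2)) ⊆
      prs D (A.filter fun a => φ.Val a) (B.filter fun b => ¬ φ.Val b) ∪
      prs D (A.filter fun b => ¬ φ.Val b) (B.filter fun a => φ.Val a) := by
    rintro ⟨a, b⟩ hq
    rw [mem_filter] at hq
    obtain ⟨hq, hne⟩ := hq
    unfold prs at hq ⊢
    rw [mem_filter, mem_product] at hq
    obtain ⟨⟨ha, hb⟩, h⟩ := hq
    simp only at ha hb hne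
    rw [mem_union, mem_filter, mem_filter, mem_product, mem_product, mem_filter, mem_filter,
      mem_filter, mem_filter]
    by_cases h5 : φ.Val a
    · by_cases h6 : φ.Val b
      · exact absurd (iff_of_true h5 h6) hne
      · exact Or.inl ⟨⟨⟨ha, h5⟩, ⟨hb, h6⟩⟩, h⟩
    · by_cases h6 : φ.Val b
      · exact Or.inr ⟨⟨⟨ha, h5⟩, ⟨hb, h6⟩⟩, h⟩
      · exact absurd (iff_of_false h5 h6) hne
  have h4 := (card_le_card h3).trans (card_union_le _ _)
  have hA := card_filter_add_card_filter_not (s := A) (p := fun a => φ.Val a)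
  have hB := card_filter_add_card_filter_not (s := B) (p := fun a => φ.Val a)
  obtain ⟨a1, ha1⟩ : ∃ n, n = (A.filter fun a => φ.Val a).card := ⟨_, rfl⟩
  obtain ⟨a0, ha0⟩ : ∃ n, n = (A.filter fun a => ¬ φ.Val a).card := ⟨_, rfl⟩
  obtain ⟨b1, hb1⟩ : ∃ n, n = (B.filter fun a => φ.Val a).card := ⟨_, rfl⟩
  obtain ⟨b0, hb0⟩ : ∃ n, n = (B.filter fun a => ¬ φ.Val a).card := ⟨_, rfl⟩
  rw [← ha1, ← ha0] at hA
  rw [← hb1, ← hb0] at hB
  rw [← ha1, ← hb0] at h1
  rw [← ha0, ← hb1] at h2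
  obtain ⟨p1, hp1⟩ : ∃ n, n = (prs D (A.filter fun a => φ.Val a)
    (B.filter fun b => ¬ φ.Val b)).card := ⟨_, rfl⟩
  obtain ⟨p2, hp2⟩ : ∃ n, n = (prs D (A.filter fun b => ¬ φ.Val b)
    (B.filter fun a => φ.Val a)).card := ⟨_, rfl⟩
  rw [← hp1] at h1 h4
  rw [← hp2] at h2 h4
  have g1 : (p1 : ℝ) ≤ Real.sqrt (φ.cost D) * Real.sqrt ((a1 : ℝ) * b0) := by
    rw [← Real.sqrt_mul (Nat.cast_nonneg _)]
    exact Real.le_sqrt_of_sq_le (by exact_mod_cast h1)
  have g2 : (p2 : ℝ) ≤ Real.sqrt (φ.cost D) * Real.sqrt ((b1 : ℝ) * a0) := by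
    rw [← Real.sqrt_mul (Nat.cast_nonneg _)]
    exact Real.le_sqrt_of_sq_le (by exact_mod_cast h2)
  have g3 : (((prs D A B).filter fun q => ¬ (φ.Val q.1 ↔ φ.Val q.2)).card : ℝ) ≤ p1 + p2 := by
    exact_mod_cast h4
  have g4 := two_sqrt a0 a1 b0 b1 (Nat.cast_nonneg _) (Nat.cast_nonneg _) (Nat.cast_nonneg _)
    (Nat.cast_nonneg _)
  have eA : (A.card : ℝ) = a1 + a0 := by exact_mod_cast hA.symm
  have eB : (B.card : ℝ) = b1 + b0 := by exact_mod_cast hB.symm
  rw [eA, eB]
  calc _ ≤ (p1 : ℝ) + p2 := g3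
    _ ≤ Real.sqrt (φ.cost D) * (Real.sqrt ((a1 : ℝ) * b0) + Real.sqrt ((b1 : ℝ) * a0)) := by
        rw [mul_add]; exact add_le_add g1 g2
    _ ≤ Real.sqrt (φ.cost D) * Real.sqrt (((a1 : ℝ) + a0) * (b1 + b0)) :=
        mul_le_mul_of_nonneg_left g4 (Real.sqrt_nonneg _)
    _ = _ := mul_comm _ _

/-- If at least `c` of the words which are computed by the formulas differ for all pairs in
`A × B`, then the formulas are large on average. -/
theorem core {E J : Type} [Fintype E] [Fintype J] (D : Finset X) (φ : E → J → Fml X)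
    (A B : Finset (Finset X)) (c : ℝ)
    (h : ∀ a ∈ A, ∀ b ∈ B,
      c ≤ ((univ.filter fun e : E => ∃ j, ¬ ((φ e j).Val a ↔ (φ e j).Val b)).card : ℝ)) :
    c * (prs D A B).card ≤
      Real.sqrt (A.card * B.card) * ∑ e, ∑ j, Real.sqrt ((φ e j).cost D) := by
  have h1 : ∀ q ∈ prs D A B, c ≤ ∑ e : E, ∑ j : J,
      (if ¬ ((φ e j).Val q.1 ↔ (φ e j).Val q.2) then (1 : ℝ) else 0) := by
    rintro ⟨a, b⟩ hq
    unfold prs at hq
    rw [mem_filter, mem_product] at hq
    refine (h a hq.1.1 b hq.1.2).trans ?_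
    rw [card_filter]
    push_cast
    refine sum_le_sum fun e _ => ?_
    split_ifs with hj
    · obtain ⟨j, hj⟩ := hj
      refine le_trans ?_ (single_le_sum (fun j _ => ?_) (mem_univ j))
      · rw [if_pos hj]
      · split_ifs <;> norm_num
    · exact sum_nonneg fun j _ => by split_ifs <;> norm_num
  calc c * (prs D A B).card = ∑ q ∈ prs D A B, c := by
        rw [sum_const, nsmul_eq_mul, mul_comm]
    _ ≤ ∑ q ∈ prs D A B, ∑ e : E, ∑ j : J,
        (if ¬ ((φ e j).Val q.1 ↔ (φ e j).Val q.2) then (1 : ℝ) else 0) := sum_le_sum h1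
    _ = ∑ e : E, ∑ j : J,
        (((prs D A B).filter fun q => ¬ ((φ e j).Val q.1 ↔ (φ e j).Val q.2)).card : ℝ) := by
        rw [sum_comm]
        refine sum_congr rfl fun e _ => ?_
        rw [sum_comm]
        refine sum_congr rfl fun j _ => ?_
        rw [card_filter]
        push_cast
        rfl
    _ ≤ ∑ e : E, ∑ j : J, Real.sqrt (A.card * B.card) * Real.sqrt ((φ e j).cost D) :=
        sum_le_sum fun e _ => sum_le_sum fun j _ => separated D (φ e j) A B
    _ = _ := by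
        rw [mul_sum]
        refine sum_congr rfl fun e _ => ?_
        rw [mul_sum]

/-! ### Parity -/

/-- The sets with an odd number of elements. -/
noncomputable def odds (X : Type) [Fintype X] : Finset (Finset X) :=
  univ.filter fun A => A.card % 2 = 1

/-- The sets with an even number of elements. -/
noncomputable def evens (X : Type) [Fintype X] : Finset (Finset X) :=
  univ.filter fun A => A.card % 2 = 0

omit [Fintype X] in
theorem flip_mod (A : Finset X) (z : X) : (flip A z).card % 2 = (A.card + 1) % 2 := by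
  by_cases hz : z ∈ A
  · have h := card_erase_add_one hz
    rw [flip_of_mem hz]
    omega
  · rw [flip_of_notMem hz, card_insert_of_notMem hz]

theorem prs_parity : (prs univ (evens X) (odds X)).card = Fintype.card X * (evens X).card := by
  have h : (prs univ (evens X) (odds X)).card = ((evens X) ×ˢ (univ : Finset X)).card := by
    refine (card_bij (fun q _ => (q.1, flip q.1 q.2)) ?_ ?_ ?_).symm
    · rintro ⟨a, z⟩ hq
      rw [mem_product] at hq
      unfold prs
      rw [mem_filter, mem_product]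
      refine ⟨⟨hq.1, ?_⟩, z, mem_univ _, rfl⟩
      have h1 := (mem_filter.1 hq.1).2
      simp only at h1
      refine mem_filter.2 ⟨mem_univ _, ?_⟩
      simp only
      rw [flip_mod]
      omega
    · rintro ⟨a, z⟩ ha ⟨b, w⟩ hb hab
      rw [Prod.mk.injEq] at hab
      obtain ⟨h1, h2⟩ := hab
      simp only at h1 h2
      subst h1
      refine Prod.ext rfl ?_
      simp only
      unfold PHI.flip at h2
      have h3 : ({z} : Finset X) = {w} := symmDiff_right_injective a h2
      exact singleton_injective h3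
    · rintro ⟨a, b⟩ hq
      unfold prs at hq
      rw [mem_filter, mem_product] at hq
      obtain ⟨⟨ha, hb⟩, z, hz, h⟩ := hq
      refine ⟨(a, z), mem_product.2 ⟨ha, mem_univ _⟩, ?_⟩
      simp only at h ⊢
      rw [← h]
  rw [h, card_product, card_univ, mul_comm]

theorem odds_card (x : X) : (odds X).card = (evens X).card := by
  refine card_bij' (fun a _ => flip a x) (fun a _ => flip a x) ?_ ?_ ?_ ?_
  · intro a ha
    have h1 := (mem_filter.1 ha).2
    refine mem_filter.2 ⟨mem_univ _, ?_⟩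
    rw [flip_mod]
    omega
  · intro a ha
    have h1 := (mem_filter.1 ha).2
    refine mem_filter.2 ⟨mem_univ _, ?_⟩
    rw [flip_mod]
    omega
  · intro a _
    exact PHI.flip_flip a x
  · intro a _
    exact PHI.flip_flip a x

/-- Parity. -/
theorem core_parity {E J : Type} [Fintype E] [Fintype J] (φ : E → J → Fml X) (c : ℝ)
    (h : ∀ a ∈ evens X, ∀ b ∈ odds X,
      c ≤ ((univ.filter fun e : E => ∃ j, ¬ ((φ e j).Val a ↔ (φ e j).Val b)).card : ℝ)) :
    c * Fintype.card X ≤ ∑ e, ∑ j, Real.sqrt ((φ e j).cost univ) := by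
  rcases isEmpty_or_nonempty X with hX | ⟨⟨x⟩⟩
  · rw [Fintype.card_eq_zero, Nat.cast_zero, mul_zero]
    exact sum_nonneg fun e _ => sum_nonneg fun j _ => Real.sqrt_nonneg _
  · have h1 := core univ φ (evens X) (odds X) c h
    rw [prs_parity, odds_card x, Real.sqrt_mul_self (Nat.cast_nonneg _)] at h1
    have h2 : 0 < ((evens X).card : ℝ) := by
      refine Nat.cast_pos.2 (card_pos.2 ⟨∅, mem_filter.2 ⟨mem_univ _, ?_⟩⟩)
      rw [card_empty]
    push_cast at h1
    refine le_of_mul_le_mul_left ?_ h2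
    calc ((evens X).card : ℝ) * (c * Fintype.card X) = c * (Fintype.card X * (evens X).card) := by
          ring
      _ ≤ _ := h1

end Pool.Agent.Q330.FRD
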