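import Mathlib
import Pool.Agent.Q330.FRD.Core

/-!
# Randomized reductions whose outputs are computed by formulas
-/

set_option autoImplicit false

namespace Pool.Agent.Q330.FRD

open Finset Pool.Agent.Q330.PHI
open scoped Classical

variable {X : Type} [Fintype X]

/-- Khrapchenko's inequality for the entries of the output of a random reduction. -/
theorem core_random {R E J : Type} [Fintype R] [Fintype E] [Fintype J] (p : R → ℝ)
    (hp : ∀ r, 0 ≤ p r) (D : Finset X) (φ : R → E → J → Fml X) (A B : Finset (Finset X)) (c : ℝ)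
    (h : ∀ a ∈ A, ∀ b ∈ B, c ≤ ∑ r, p r *
      ((univ.filter fun e : E => ∃ j, ¬ ((φ r e j).Val a ↔ (φ r e j).Val b)).card : ℝ)) :
    c * (prs D A B).card ≤
      Real.sqrt (A.card * B.card) * ∑ r, p r * ∑ e, ∑ j, Real.sqrt ((φ r e j).cost D) := by
  have h0 : ∀ (r : R) (a b : Finset X),
      ((univ.filter fun e : E => ∃ j, ¬ ((φ r e j).Val a ↔ (φ r e j).Val b)).card : ℝ) ≤
      ∑ e : E, ∑ j : J, (if ¬ ((φ r e j).Val a ↔ (φ r e j).Val b) then (1 : ℝ) else 0) := by
    intro r a b
    rw [card_filter]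
    push_cast
    refine sum_le_sum fun e _ => ?_
    split_ifs with hj
    · obtain ⟨j, hj⟩ := hj
      refine le_trans ?_ (single_le_sum (fun j _ => ?_) (mem_univ j))
      · rw [if_pos hj]
      · split_ifs <;> norm_num
    · exact sum_nonneg fun j _ => by split_ifs <;> norm_num
  have h1 : ∀ q ∈ prs D A B, c ≤ ∑ r, p r * ∑ e : E, ∑ j : J,
      (if ¬ ((φ r e j).Val q.1 ↔ (φ r e j).Val q.2) then (1 : ℝ) else 0) := by
    rintro ⟨a, b⟩ hq
    unfold prs at hq
    rw [mem_filter, mem_product] at hq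
    refine (h a hq.1.1 b hq.1.2).trans ?_
    exact sum_le_sum fun r _ => mul_le_mul_of_nonneg_left (h0 r a b) (hp r)
  calc c * (prs D A B).card = ∑ q ∈ prs D A B, c := by
        rw [sum_const, nsmul_eq_mul, mul_comm]
    _ ≤ ∑ q ∈ prs D A B, ∑ r, p r * ∑ e : E, ∑ j : J,
        (if ¬ ((φ r e j).Val q.1 ↔ (φ r e j).Val q.2) then (1 : ℝ) else 0) := sum_le_sum h1
    _ = ∑ r, p r * ∑ e : E, ∑ j : J,
        (((prs D A B).filter fun q => ¬ ((φ r e j).Val q.1 ↔ (φ r e j).Val q.2)).card : ℝ) := by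
        rw [sum_comm]
        refine sum_congr rfl fun r _ => ?_
        rw [← mul_sum, sum_comm]
        congr 1
        refine sum_congr rfl fun e _ => ?_
        rw [sum_comm]
        refine sum_congr rfl fun j _ => ?_
        rw [card_filter]
        push_cast
        rfl
    _ ≤ ∑ r, p r * ∑ e : E, ∑ j : J,
        Real.sqrt (A.card * B.card) * Real.sqrt ((φ r e j).cost D) :=
        sum_le_sum fun r _ => mul_le_mul_of_nonneg_left
          (sum_le_sum fun e _ => sum_le_sum fun j _ => separated D (φ r e j) A B) (hp r)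
    _ = _ := by
        rw [mul_sum]
        refine sum_congr rfl fun r _ => ?_
        rw [mul_left_comm]
        congr 1
        rw [mul_sum]
        refine sum_congr rfl fun e _ => ?_
        rw [mul_sum]

/-- Parity. -/
theorem core_random_parity {R E J : Type} [Fintype R] [Fintype E] [Fintype J] (p : R → ℝ)
    (hp : ∀ r, 0 ≤ p r) (φ : R → E → J → Fml X) (c : ℝ)
    (h : ∀ a ∈ evens X, ∀ b ∈ odds X, c ≤ ∑ r, p r *
      ((univ.filter fun e : E => ∃ j, ¬ ((φ r e j).Val a ↔ (φ r e j).Val b)).card : ℝ)) :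
    c * Fintype.card X ≤ ∑ r, p r * ∑ e, ∑ j, Real.sqrt ((φ r e j).cost univ) := by
  rcases isEmpty_or_nonempty X with hX | ⟨⟨x⟩⟩
  · rw [Fintype.card_eq_zero, Nat.cast_zero, mul_zero]
    exact sum_nonneg fun r _ => mul_nonneg (hp r)
      (sum_nonneg fun e _ => sum_nonneg fun j _ => Real.sqrt_nonneg _)
  · have h1 := core_random p hp univ φ (evens X) (odds X) c h
    rw [prs_parity, odds_card x, Real.sqrt_mul_self (Nat.cast_nonneg _)] at h1
    have h2 : 0 < ((evens X).card : ℝ) := by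
      refine Nat.cast_pos.2 (card_pos.2 ⟨∅, mem_filter.2 ⟨mem_univ _, ?_⟩⟩)
      rw [card_empty]
    push_cast at h1
    refine le_of_mul_le_mul_left ?_ h2
    calc ((evens X).card : ℝ) * (c * Fintype.card X) = c * (Fintype.card X * (evens X).card) := by
          ring
      _ ≤ _ := h1

/-- If the reduction is right with probability at least `1 - η` on `a` and on `b` then both outputs
are right at the same time with probability at least `1 - 2 η`. -/
theorem both {R : Type} [Fintype R] {p : R → ℝ} (hp : ∀ r, 0 ≤ p r) (hp1 : ∑ r, p r = 1)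
    (P Q : R → Prop) {η c : ℝ} (hc : 0 ≤ c) (d : R → ℝ) (hd : ∀ r, 0 ≤ d r)
    (hP : 1 - η ≤ ∑ r ∈ univ.filter P, p r) (hQ : 1 - η ≤ ∑ r ∈ univ.filter Q, p r)
    (h : ∀ r, P r → Q r → c ≤ d r) : (1 - 2 * η) * c ≤ ∑ r, p r * d r := by
  have h1 : 1 - 2 * η ≤ ∑ r ∈ univ.filter (fun r => P r ∧ Q r), p r := by
    have e1 : ∑ r ∈ univ.filter P, p r ≤ ∑ r ∈ univ.filter (fun r => P r ∧ Q r), p r +
        ∑ r ∈ univ.filter (fun r => ¬ Q r), p r := by
      rw [sum_filter, sum_filter, sum_filter, ← sum_add_distrib]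
      refine sum_le_sum fun r _ => ?_
      have := hp r
      by_cases h1 : P r <;> by_cases h2 : Q r <;> simp [h1, h2, this]
    have e2 : ∑ r ∈ univ.filter Q, p r + ∑ r ∈ univ.filter (fun r => ¬ Q r), p r = 1 := by
      rw [sum_filter_add_sum_filter_not, hp1]
    linarith
  calc (1 - 2 * η) * c ≤ (∑ r ∈ univ.filter (fun r => P r ∧ Q r), p r) * c :=
        mul_le_mul_of_nonneg_right h1 hc
    _ = ∑ r ∈ univ.filter (fun r => P r ∧ Q r), p r * c := by rw [sum_mul]
    _ ≤ ∑ r ∈ univ.filter (fun r => P r ∧ Q r), p r * d r :=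
        sum_le_sum fun r hr => mul_le_mul_of_nonneg_left
          (h r (mem_filter.1 hr).2.1 (mem_filter.1 hr).2.2) (hp r)
    _ ≤ ∑ r, p r * d r := sum_le_sum_of_subset_of_nonneg (filter_subset _ _)
        fun r _ _ => mul_nonneg (hp r) (hd r)

end Pool.Agent.Q330.FRD
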