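import Pool.Agent.Q330.FRD.Core

/-!
# Two fixed outputs, chosen according to the parity
-/

set_option autoImplicit false

namespace Pool.Agent.Q330.FRD

open Finset Pool.Agent.Q330.PHI
open scoped Classical

theorem cnt_card {t : ℕ} (A : Finset (Fin (2 ^ t))) :
    cnt (fun i => if h : i < 2 ^ t then (⟨i, h⟩ : Fin (2 ^ t)) else ⟨0, by positivity⟩) t 0 A =
      A.card := by
  unfold cnt
  rw [← Fin.sum_univ_eq_sum_range (fun i => if (if h : 0 + i < 2 ^ t then
    (⟨0 + i, h⟩ : Fin (2 ^ t)) else ⟨0, by positivity⟩) ∈ A then 1 else 0) (2 ^ t)]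
  rw [card_eq_sum_ones, ← sum_filter_add_sum_filter_not univ (fun i => i ∈ A)]
  have h1 : ∀ i : Fin (2 ^ t), (if h : 0 + (i : ℕ) < 2 ^ t then
      (⟨0 + i, h⟩ : Fin (2 ^ t)) else ⟨0, by positivity⟩) = i := by
    intro i
    have h2 : 0 + (i : ℕ) < 2 ^ t := by rw [zero_add]; exact i.2
    rw [dif_pos h2]
    exact Fin.ext (by simp)
  have h3 : ∑ i ∈ univ.filter (fun i : Fin (2 ^ t) => i ∈ A), (if (if h : 0 + (i : ℕ) < 2 ^ t then
      (⟨0 + i, h⟩ : Fin (2 ^ t)) else ⟨0, by positivity⟩) ∈ A then 1 else 0) =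
      ∑ i ∈ A, 1 := by
    have h4 : univ.filter (fun i : Fin (2 ^ t) => i ∈ A) = A := by
      ext i; simp
    rw [h4]
    refine sum_congr rfl fun i hi => ?_
    rw [h1, if_pos hi]
  have h5 : ∑ i ∈ univ.filter (fun i : Fin (2 ^ t) => ¬ i ∈ A), (if (if h : 0 + (i : ℕ) < 2 ^ t then
      (⟨0 + i, h⟩ : Fin (2 ^ t)) else ⟨0, by positivity⟩) ∈ A then 1 else 0) = 0 := by
    refine sum_eq_zero fun i hi => ?_
    rw [h1, if_neg (mem_filter.1 hi).2]
  rw [h3, h5, add_zero]

/-- Between two words the parity is chosen by formulas of quadratic size, which are needed only where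
the words differ. -/
theorem choose_word {E T : Type} [Fintype E] (y₁ y₀ : E → T) (t : ℕ) :
    ∃ (φ : E → Unit → Fml (Fin (2 ^ t))) (dec : E → (Unit → Prop) → T),
      (∀ a ∈ evens (Fin (2 ^ t)), (fun e => dec e fun j => (φ e j).Val a) = y₁) ∧
      (∀ b ∈ odds (Fin (2 ^ t)), (fun e => dec e fun j => (φ e j).Val b) = y₀) ∧
      ∑ e, ∑ j, Real.sqrt ((φ e j).cost univ) ≤
        ((univ.filter fun e => y₁ e ≠ y₀ e).card : ℝ) * 2 ^ t := by
  obtain ⟨x, hx⟩ : ∃ x : ℕ → Fin (2 ^ t), x = fun i => if h : i < 2 ^ t then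
    (⟨i, h⟩ : Fin (2 ^ t)) else ⟨0, by positivity⟩ := ⟨_, rfl⟩
  refine ⟨fun e _ => if y₁ e = y₀ e then .leaf fun _ => True else parity x t 0 true,
    fun e w => if w () then y₀ e else y₁ e, ?_, ?_, ?_⟩
  · intro a ha
    funext e
    have h1 := (mem_filter.1 ha).2
    by_cases h : y₁ e = y₀ e
    · simp only [h, if_true, Fml.Val, ite_self]
    · have h2 : ¬ (parity x t 0 true).Val a := by
        rw [(parity_val x a t 0).1, hx, cnt_card]
        omega
      simp only [h, if_false, h2]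
  · intro a ha
    funext e
    have h1 := (mem_filter.1 ha).2
    by_cases h : y₁ e = y₀ e
    · simp only [h, if_true, Fml.Val, ite_self]
    · have h2 : (parity x t 0 true).Val a := by
        rw [(parity_val x a t 0).1, hx, cnt_card]
        exact h1
      simp only [h, if_false, h2, if_true]
  · rw [card_filter]
    push_cast
    rw [sum_mul]
    refine sum_le_sum fun e _ => ?_
    rw [Fintype.sum_unique]
    by_cases h : y₁ e = y₀ e
    · rw [if_pos h, if_neg (fun h' => h' h), cost_free _ _ (fun _ _ _ => Iff.rfl)]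
      simp
    · rw [if_neg h, if_pos h, one_mul]
      rw [show (2 : ℝ) ^ t = Real.sqrt ((4 : ℝ) ^ t) by
        rw [show (4 : ℝ) ^ t = (2 ^ t) * (2 ^ t) by rw [← mul_pow]; norm_num,
          Real.sqrt_mul_self (by positivity)]]
      exact Real.sqrt_le_sqrt (by exact_mod_cast parity_cost x univ t 0 true)

end Pool.Agent.Q330.FRD
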